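import Pool.Agent.Y98.EC.Hull
import Pool.Agent.H689R3.WeylOrbit

/-!
# The cone theorem for divisors of positive degree on blow-ups of projective space (abstract form)
-/

set_option autoImplicit false

namespace Pool.Agent.Y98.EC

open Finset Pool.Agent.H689R3.Weyl

variable {s n : ℕ}

/-- a functional which is positive on the nonzero elements of a good cone -/
def ell (x : NOne s) : ℝ := x.1 + ∑ i, (x.1 - x.2 i)

lemma ell_add (x y : NOne s) : ell (x + y) = ell x + ell y := by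
  simp only [ell, Prod.fst_add, Prod.snd_add, Pi.add_apply, sum_sub_distrib, sum_add_distrib]
  ring

lemma ell_smul (t : ℝ) (x : NOne s) : ell (t • x) = t * ell x := by
  simp only [ell, Prod.smul_fst, Prod.smul_snd, Pi.smul_apply, smul_eq_mul, mul_add, mul_sum,
    mul_sub]

lemma ell_cont : Continuous (ell : NOne s → ℝ) := by
  unfold ell
  fun_prop

/-- the linear version -/
def ellL : NOne s →ₗ[ℝ] ℝ where
  toFun := ell
  map_add' := ell_add
  map_smul' := ell_smul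

/-- the degree as a linear map -/
def fL (n : ℕ) : NOne s →ₗ[ℝ] ℝ where
  toFun := fDeg n
  map_add' := fDeg_add
  map_smul' := fDeg_smul

section good

variable {C : Set (NOne s)} (hC : GoodCone s n C)

include hC

lemma zero_mem' : (0 : NOne s) ∈ C := by
  have h := hC.smul_mem 0 le_rfl _ hC.hyper_mem
  rwa [zero_smul] at h

lemma sum_mem' {ι : Type*} (T : Finset ι) (f : ι → NOne s) (h : ∀ i ∈ T, f i ∈ C) :
    ∑ i ∈ T, f i ∈ C :=
  Finset.sum_induction _ (· ∈ C) (fun a b ha hb => hC.add_mem a ha b hb) (zero_mem' hC) h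

lemma ell_terms {x : NOne s} (hx : x ∈ C) (i : Fin s) : 0 ≤ x.1 - x.2 i :=
  sub_nonneg.2 (hC.mult_le x hx i)

lemma ell_nonneg {x : NOne s} (hx : x ∈ C) : 0 ≤ ell x :=
  add_nonneg (hC.nonneg x hx) (sum_nonneg fun i _ => ell_terms hC hx i)

lemma ell_zero {x : NOne s} (hx : x ∈ C) (h : ell x = 0) : x = 0 := by
  have h1 : 0 ≤ ∑ i, (x.1 - x.2 i) := sum_nonneg fun i _ => ell_terms hC hx i
  have h2 := hC.nonneg x hx
  unfold ell at h
  have h3 : x.1 = 0 := by linarith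
  have h4 : ∑ i, (x.1 - x.2 i) = 0 := by linarith
  have h5 := (sum_eq_zero_iff_of_nonneg fun i _ => ell_terms hC hx i).1 h4
  ext1
  · exact h3
  · funext i
    have := h5 i (mem_univ i)
    show x.2 i = 0
    linarith

lemma ell_pos {x : NOne s} (hx : x ∈ C) (h : x ≠ 0) : 0 < ell x :=
  lt_of_le_of_ne (ell_nonneg hC hx) fun h1 => h (ell_zero hC hx h1.symm)

/-- the base of the cone is compact -/
lemma base_compact : IsCompact {x | x ∈ C ∧ ell x = 1} := by
  refine IsCompact.of_isClosed_subset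
    (s := Set.Icc ((0, fun _ => -1) : NOne s) (1, fun _ => 1)) isCompact_Icc
    (hC.closed.inter (isClosed_eq ell_cont continuous_const)) ?_
  rintro x ⟨hx, h⟩
  have h1 := hC.nonneg x hx
  have h0 : 0 ≤ ∑ i, (x.1 - x.2 i) := sum_nonneg fun i _ => ell_terms hC hx i
  have h2 : x.1 ≤ 1 := by
    unfold ell at h
    linarith
  refine ⟨⟨h1, fun i => ?_⟩, ⟨h2, fun i => ?_⟩⟩
  · have h3 : x.1 - x.2 i ≤ ∑ i, (x.1 - x.2 i) :=
      single_le_sum (f := fun i => x.1 - x.2 i) (fun i _ => ell_terms hC hx i) (mem_univ i)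
    unfold ell at h
    show -1 ≤ x.2 i
    linarith
  · have h3 := hC.mult_le x hx i
    show x.2 i ≤ 1
    linarith

lemma base_convex : Convex ℝ {x | x ∈ C ∧ ell x = 1} := by
  rintro x ⟨hx, hx1⟩ y ⟨hy, hy1⟩ a b ha hb hab
  refine ⟨hC.add_mem _ (hC.smul_mem a ha x hx) _ (hC.smul_mem b hb y hy), ?_⟩
  rw [ell_add, ell_smul, ell_smul, hx1, hy1]
  linarith

/-- extreme points of the base span extremal rays -/
lemma extremal_of_extreme {x : NOne s} (hx : x ∈ Set.extremePoints ℝ {x | x ∈ C ∧ ell x = 1}) :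
    SpansExtremalRay C x := by
  obtain ⟨⟨hxC, hx1⟩, hext⟩ := hx
  refine ⟨hxC, fun h0 => ?_, ?_⟩
  · rw [h0] at hx1
    simp [ell] at hx1
  · rintro y hy z hz ⟨t, ht, hyz⟩
    have hs : ell y + ell z = t := by
      rw [← ell_add, hyz, ell_smul, hx1, mul_one]
    rcases (ell_nonneg hC hy).eq_or_lt with h1 | h1
    · have hy0 := ell_zero hC hy h1.symm
      rw [hy0, zero_add] at hyz
      exact ⟨⟨0, le_rfl, by rw [hy0, zero_smul]⟩, ⟨t, ht, hyz⟩⟩
    rcases (ell_nonneg hC hz).eq_or_lt with h2 | h2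
    · have hz0 := ell_zero hC hz h2.symm
      rw [hz0, add_zero] at hyz
      exact ⟨⟨t, ht, hyz⟩, ⟨0, le_rfl, by rw [hz0, zero_smul]⟩⟩
    have ht0 : 0 < t := by linarith
    have hyK : (ell y)⁻¹ • y ∈ {x | x ∈ C ∧ ell x = 1} :=
      ⟨hC.smul_mem _ (inv_nonneg.2 h1.le) y hy, by rw [ell_smul, inv_mul_cancel₀ h1.ne']⟩
    have hzK : (ell z)⁻¹ • z ∈ {x | x ∈ C ∧ ell x = 1} :=
      ⟨hC.smul_mem _ (inv_nonneg.2 h2.le) z hz, by rw [ell_smul, inv_mul_cancel₀ h2.ne']⟩
    have hseg : x ∈ openSegment ℝ ((ell y)⁻¹ • y) ((ell z)⁻¹ • z) := by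
      refine ⟨ell y / t, ell z / t, div_pos h1 ht0, div_pos h2 ht0, ?_, ?_⟩
      · rw [← add_div, hs, div_self ht0.ne']
      · rw [smul_smul, smul_smul, div_mul_eq_mul_div, mul_inv_cancel₀ h1.ne', div_mul_eq_mul_div,
          mul_inv_cancel₀ h2.ne', ← smul_add, hyz, smul_smul, one_div, inv_mul_cancel₀ ht0.ne',
          one_smul]
    have h3 := hext hyK hzK hseg
    have h4 : (ell z)⁻¹ • z = x := by
      have hseg' : x ∈ openSegment ℝ ((ell z)⁻¹ • z) ((ell y)⁻¹ • y) := by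
        rw [openSegment_symm]
        exact hseg
      exact hext hzK hyK hseg'
    refine ⟨⟨ell y, h1.le, ?_⟩, ⟨ell z, h2.le, ?_⟩⟩
    · rw [← h3, smul_smul, mul_inv_cancel₀ h1.ne', one_smul]
    · rw [← h4, smul_smul, mul_inv_cancel₀ h2.ne', one_smul]

/-- the exceptional classes span extremal rays -/
lemma exc_extremal (i : Fin s) :
    SpansExtremalRay C (toReal ((0, fun j => if j = i then -1 else 0) : NInt s)) := by
  refine ⟨hC.weyl_mem _ ⟨_, IsWeylDivisor.exc i, rfl⟩, ?_, ?_⟩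
  · intro h
    have := congrFun (congrArg Prod.snd h) i
    simp [toReal] at this
  · rintro y hy z hz ⟨t, ht, hyz⟩
    have h1 : y.1 + z.1 = 0 := by
      have := congrArg Prod.fst hyz
      simpa [toReal] using this
    have hy1 : y.1 = 0 := by linarith [hC.nonneg y hy, hC.nonneg z hz]
    have hz1 : z.1 = 0 := by linarith
    have h2 : ∀ j, j ≠ i → y.2 j + z.2 j = 0 := by
      intro j hj
      have := congrFun (congrArg Prod.snd hyz) j
      simpa [toReal, hj] using this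
    have h3 : ∀ j, y.2 j ≤ 0 := fun j => hy1 ▸ hC.mult_le y hy j
    have h4 : ∀ j, z.2 j ≤ 0 := fun j => hz1 ▸ hC.mult_le z hz j
    refine ⟨⟨-y.2 i, by linarith [h3 i], ?_⟩, ⟨-z.2 i, by linarith [h4 i], ?_⟩⟩
    · ext1
      · simp [toReal, hy1]
      · funext j
        by_cases hj : j = i
        · subst hj
          simp [toReal]
        · have := h2 j hj
          have : y.2 j = 0 := by linarith [h3 j, h4 j]
          simp [toReal, hj, this]
    · ext1
      · simp [toReal, hz1]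
      · funext j
        by_cases hj : j = i
        · subst hj
          simp [toReal]
        · have := h2 j hj
          have : z.2 j = 0 := by linarith [h3 j, h4 j]
          simp [toReal, hj, this]

/-- Weyl divisors span extremal rays -/
lemma weyl_extremal {D : NInt s} (hD : IsWeylDivisor n D) : SpansExtremalRay C (toReal D) := by
  have key : ∀ σ : Equiv.Perm (Fin s),
      SpansExtremalRay C (toReal ((D.1, fun i => D.2 (σ i)) : NInt s)) := by
    induction hD with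
    | exc i =>
      intro σ
      have e : ((0, fun j => if σ j = i then (-1 : ℤ) else 0) : NInt s) =
          (0, fun j => if j = σ.symm i then -1 else 0) := by
        ext1
        · rfl
        · funext j
          simp only [Equiv.eq_symm_apply]
      have h := exc_extremal hC (σ.symm i)
      rw [← e] at h
      exact h
    | perm τ D _ ih =>
      intro σ
      exact ih (σ.trans τ)
    | crem I hI D _ ih =>
      intro σ
      have hI' : (I.map σ.symm.toEmbedding).card = n + 1 := by rw [card_map, hI]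
      have h := extremal_crem hC hI' (ih σ)
      rw [← toReal_cremona] at h
      have e : cremona n (I.map σ.symm.toEmbedding) ((D.1, fun i => D.2 (σ i)) : NInt s) =
          (((cremona n I D).1, fun i => (cremona n I D).2 (σ i)) : NInt s) := by
        have e1 : ∑ i ∈ I.map σ.symm.toEmbedding, D.2 (σ i) = ∑ i ∈ I, D.2 i := by
          rw [sum_map]
          simp
        have e2 : ∀ i, i ∈ I.map σ.symm.toEmbedding ↔ σ i ∈ I := by
          intro i
          rw [mem_map]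
          constructor
          · rintro ⟨j, hj, rfl⟩
            simpa using hj
          · intro h
            exact ⟨σ i, h, by simp⟩
        unfold cremona
        ext1
        · simp only
          rw [e1]
        · funext i
          simp only [e2]
          rw [e1]
      rw [e] at h
      exact h
  exact key 1

lemma weyl_finite (hn : 2 ≤ n) (B : ℝ) : {x : NOne s | x ∈ weylSet s n ∧ x.1 ≤ B}.Finite := by
  refine (finite_of_bb (s := s) hn (-1) B).subset ?_
  rintro v ⟨hv, hvB⟩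
  obtain ⟨D, hD, rfl⟩ := id hv
  exact ⟨⟨D, rfl⟩, weyl_bb hv, hC.nonneg _ (hC.weyl_mem _ hv), hvB⟩

/-- the normalized Weyl divisors -/
def nW (s n : ℕ) : Set (NOne s) := {x | ∃ v ∈ weylSet s n, x = (ell v)⁻¹ • v}

omit hC in
lemma weyl_ne {v : NOne s} (hv : v ∈ weylSet s n) : v ≠ 0 := by
  rintro rfl
  have h := weyl_fDeg hv
  simp [fDeg] at h

lemma nW_base {x : NOne s} (hx : x ∈ nW s n) : x ∈ C ∧ ell x = 1 := by
  obtain ⟨v, hv, rfl⟩ := hx
  have h1 := ell_pos hC (hC.weyl_mem v hv) (weyl_ne hv)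
  exact ⟨hC.smul_mem _ (inv_nonneg.2 h1.le) _ (hC.weyl_mem v hv), by
    rw [ell_smul, inv_mul_cancel₀ h1.ne']⟩

lemma nW_finite (hn : 2 ≤ n) {ε : ℝ} (hε : 0 < ε) : {x | x ∈ nW s n ∧ ε ≤ fDeg n x}.Finite := by
  refine ((weyl_finite hC hn ε⁻¹).image fun v => (ell v)⁻¹ • v).subset ?_
  rintro _ ⟨⟨v, hv, rfl⟩, h⟩
  refine ⟨v, ⟨hv, ?_⟩, rfl⟩
  have h1 := ell_pos hC (hC.weyl_mem v hv) (weyl_ne hv)
  rw [fDeg_smul, weyl_fDeg hv, mul_one] at h
  have h2 : ell v ≤ ε⁻¹ := by
    rw [le_inv_comm₀ h1 hε]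
    exact h
  refine le_trans ?_ h2
  have h3 : 0 ≤ ∑ i, (v.1 - v.2 i) :=
    sum_nonneg fun i _ => ell_terms hC (hC.weyl_mem v hv) i
  unfold ell
  linarith

/-- the compact set of generators -/
def ZZ (n : ℕ) (C : Set (NOne s)) : Set (NOne s) := {x | x ∈ C ∧ ell x = 1 ∧ fDeg n x ≤ 0} ∪ nW s n

lemma ZZ_base {x : NOne s} (hx : x ∈ ZZ n C) : x ∈ C ∧ ell x = 1 := by
  rcases hx with ⟨h1, h2, _⟩ | h
  · exact ⟨h1, h2⟩
  · exact nW_base hC h

lemma ZZ_compact (hn : 2 ≤ n) : IsCompact (ZZ n C) := by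
  refine (base_compact hC).of_isClosed_subset ?_ fun x hx => ZZ_base hC hx
  rw [← closure_subset_iff_isClosed]
  intro x hx
  have hxK : x ∈ C ∧ ell x = 1 :=
    closure_minimal (s := ZZ n C) (t := {x | x ∈ C ∧ ell x = 1}) (fun x hx => ZZ_base hC hx)
      (base_compact hC).isClosed hx
  by_cases h : fDeg n x ≤ 0
  · exact Or.inl ⟨hxK.1, hxK.2, h⟩
  · right
    rw [not_le] at h
    have hopen : IsOpen {y : NOne s | fDeg n x / 2 < fDeg n y} :=
      isOpen_lt continuous_const continuous_fDeg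
    have h1 : x ∈ closure ({y : NOne s | fDeg n x / 2 < fDeg n y} ∩ ZZ n C) :=
      hopen.inter_closure ⟨(by show fDeg n x / 2 < fDeg n x; linarith), hx⟩
    have hfin := nW_finite (s := s) hC hn (half_pos h)
    have h2 : {y : NOne s | fDeg n x / 2 < fDeg n y} ∩ ZZ n C ⊆
        {y | y ∈ nW s n ∧ fDeg n x / 2 ≤ fDeg n y} := by
      rintro y ⟨hy1, hy2 | hy2⟩
      · have hy1' : fDeg n x / 2 < fDeg n y := hy1
        exact absurd hy2.2.2 (not_le.2 (lt_trans (half_pos h) hy1'))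
      · exact ⟨hy2, le_of_lt hy1⟩
    exact (closure_minimal h2 hfin.isClosed h1).1

lemma base_sub (hn : 2 ≤ n) (hs : n + 1 ≤ s) {x : NOne s} (hx : x ∈ C) (hx1 : ell x = 1) :
    x ∈ convexHull ℝ (ZZ n C) := by
  have h1 : x ∈ {x | x ∈ C ∧ ell x = 1} := ⟨hx, hx1⟩
  rw [← closure_convexHull_extremePoints (base_compact hC) (base_convex hC)] at h1
  refine closure_minimal (convexHull_mono ?_) (isCompact_hull (ZZ_compact hC hn)).isClosed h1
  intro y hy
  by_cases h : fDeg n y ≤ 0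
  · exact Or.inl ⟨hy.1.1, hy.1.2, h⟩
  · right
    obtain ⟨v, hv, t, ht, hyv⟩ := extremal_weyl hn hs hC (extremal_of_extreme hC hy) (not_le.1 h)
    refine ⟨v, hv, ?_⟩
    have h2 := hy.1.2
    rw [hyv, ell_smul] at h2
    rw [hyv, eq_inv_of_mul_eq_one_left h2]

/-- **The cone theorem.** -/
theorem cone_dec (hn : 2 ≤ n) (hs : n + 1 ≤ s) {x : NOne s} (hx : x ∈ C) :
    ∃ (T : Finset (NInt s)) (a : NInt s → ℝ) (y : NOne s), T.card ≤ s + 1 ∧
      (∀ D ∈ T, IsWeylDivisor n D ∧ 0 < a D) ∧ y ∈ C ∧ fDeg n y ≤ 0 ∧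
      x = y + ∑ D ∈ T, a D • toReal D := by
  classical
  by_cases hx0 : x = 0
  · refine ⟨∅, fun _ => 0, 0, by simp, by simp, zero_mem' hC, by simp [fDeg], by simp [hx0]⟩
  obtain ⟨t, ht⟩ : ∃ t, t = ell x := ⟨_, rfl⟩
  have ht0 : 0 < t := by
    rw [ht]
    exact ell_pos hC hx hx0
  have hxK : t⁻¹ • x ∈ convexHull ℝ (ZZ n C) :=
    base_sub hC hn hs (hC.smul_mem _ (inv_nonneg.2 ht0.le) x hx) (by
      rw [ell_smul, ← ht, inv_mul_cancel₀ ht0.ne'])
  obtain ⟨ι, _, z, w, hz, hi, hw, hw1, hxe⟩ := eq_pos_convex_span_of_mem_convexHull hxK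
  have hzb : ∀ i, z i ∈ C ∧ ell (z i) = 1 := fun i => ZZ_base hC (hz ⟨i, rfl⟩)
  have hli : LinearIndependent ℝ z := by
    rw [linearIndependent_iff']
    intro S g hg i hiS
    refine affineIndependent_iff.1 hi S g ?_ hg i hiS
    have h1 := congrArg ellL hg
    rw [map_sum, map_zero] at h1
    rw [← h1]
    refine sum_congr rfl fun j _ => ?_
    rw [map_smul, smul_eq_mul]
    show g j = g j * ell (z j)
    rw [(hzb j).2, mul_one]
  have hcard : Fintype.card ι ≤ s + 1 := by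
    have h1 := hli.fintype_card_le_finrank
    have h2 : Module.finrank ℝ (NOne s) = s + 1 := by
      rw [Module.finrank_prod, Module.finrank_self, Module.finrank_fin_fun, add_comm]
    rwa [h2] at h1
  have hD : ∀ i, ∃ E : NInt s, ¬ fDeg n (z i) ≤ 0 →
      IsWeylDivisor n E ∧ z i = (ell (toReal E))⁻¹ • toReal E ∧ 0 < ell (toReal E) := by
    intro i
    by_cases h : fDeg n (z i) ≤ 0
    · exact ⟨0, fun h1 => absurd h h1⟩
    · rcases hz ⟨i, rfl⟩ with h1 | ⟨v, ⟨E, hE, rfl⟩, h1⟩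
      · exact absurd h1.2.2 h
      · exact ⟨E, fun _ => ⟨hE, h1, ell_pos hC (hC.weyl_mem _ ⟨E, hE, rfl⟩)
          (weyl_ne ⟨E, hE, rfl⟩)⟩⟩
  choose D hD using hD
  obtain ⟨S, hS⟩ : ∃ S : Finset ι, S = univ.filter fun i => ¬ fDeg n (z i) ≤ 0 := ⟨_, rfl⟩
  have hSm : ∀ i, i ∈ S ↔ ¬ fDeg n (z i) ≤ 0 := fun i => by rw [hS, mem_filter]; simp
  obtain ⟨c, hc⟩ : ∃ c : ι → ℝ, c = fun i => t * (w i * (ell (toReal (D i)))⁻¹) := ⟨_, rfl⟩
  have hcpos : ∀ i ∈ S, 0 < c i := by
    intro i hiS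
    rw [hc]
    exact mul_pos ht0 (mul_pos (hw i) (inv_pos.2 (hD i ((hSm i).1 hiS)).2.2))
  refine ⟨S.image D, fun E => ∑ i ∈ S.filter fun i => D i = E, c i,
    t • ∑ i ∈ univ.filter (fun i => fDeg n (z i) ≤ 0), w i • z i, ?_, ?_, ?_, ?_, ?_⟩
  · exact card_image_le.trans ((card_le_univ S).trans hcard)
  · intro E hE
    obtain ⟨i, hiS, rfl⟩ := mem_image.1 hE
    refine ⟨(hD i ((hSm i).1 hiS)).1, ?_⟩
    exact sum_pos (fun j hj => hcpos j (mem_filter.1 hj).1)
      ⟨i, mem_filter.2 ⟨hiS, rfl⟩⟩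
  · exact hC.smul_mem _ ht0.le _ (sum_mem' hC _ _ fun i _ =>
      hC.smul_mem _ (hw i).le _ (hzb i).1)
  · rw [fDeg_smul]
    refine mul_nonpos_of_nonneg_of_nonpos ht0.le ?_
    have e : fDeg n (∑ i ∈ univ.filter (fun i => fDeg n (z i) ≤ 0), w i • z i) =
        ∑ i ∈ univ.filter (fun i => fDeg n (z i) ≤ 0), w i * fDeg n (z i) := by
      have h1 := map_sum (fL (s := s) n) (fun i => w i • z i)
        (univ.filter (fun i => fDeg n (z i) ≤ 0))
      refine Eq.trans h1 (sum_congr rfl fun i _ => ?_)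
      exact fDeg_smul _ _
    rw [e]
    exact sum_nonpos fun i hi =>
      mul_nonpos_of_nonneg_of_nonpos (hw i).le (mem_filter.1 hi).2
  · have e1 : ∑ E ∈ S.image D, (∑ i ∈ S.filter fun i => D i = E, c i) • toReal E =
        ∑ i ∈ S, c i • toReal (D i) := by
      rw [← sum_fiberwise_of_maps_to (fun i hi => mem_image_of_mem D hi)]
      refine sum_congr rfl fun E _ => ?_
      rw [sum_smul]
      refine sum_congr rfl fun i hi => ?_
      rw [(mem_filter.1 hi).2]
    have e2 : ∀ i ∈ S, c i • toReal (D i) = t • (w i • z i) := by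
      intro i hiS
      rw [(hD i ((hSm i).1 hiS)).2.1, hc, smul_smul, smul_smul, mul_assoc]
    have e3 : x = t • ∑ i, w i • z i := by
      rw [hxe, smul_smul, mul_inv_cancel₀ ht0.ne', one_smul]
    rw [e1, sum_congr rfl e2, ← smul_sum, ← smul_add]
    refine e3.trans ?_
    congr 1
    rw [hS]
    exact (sum_filter_add_sum_filter_not _ _ _).symm

/-- The cone theorem with finitely many Weyl divisors. -/
theorem cone_dec_finite (hn : 2 ≤ n) (hs : n + 1 ≤ s) {x : NOne s} (hx : x ∈ C) {B : ℝ}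
    (hB : 0 ≤ B) :
    ∃ (T : Finset (NInt s)) (a : NInt s → ℝ) (y : NOne s), T.card ≤ s + 1 ∧
      (∀ D ∈ T, IsWeylDivisor n D ∧ (D.1 : ℝ) ≤ B ∧ 0 < a D) ∧ y ∈ C ∧ B * fDeg n y ≤ y.1 ∧
      x = y + ∑ D ∈ T, a D • toReal D := by
  classical
  obtain ⟨T, a, y, h1, h2, h3, h4, h5⟩ := cone_dec hC hn hs hx
  have hm : ∀ D ∈ T, a D • toReal D ∈ C := fun D hD =>
    hC.smul_mem _ (h2 D hD).2.le _ (hC.weyl_mem _ ⟨D, (h2 D hD).1, rfl⟩)
  refine ⟨T.filter fun D => (D.1 : ℝ) ≤ B, a,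
    y + ∑ D ∈ T.filter (fun D => ¬ (D.1 : ℝ) ≤ B), a D • toReal D,
    (card_filter_le _ _).trans h1, ?_, ?_, ?_, ?_⟩
  · intro D hD
    obtain ⟨h6, h7⟩ := mem_filter.1 hD
    exact ⟨(h2 D h6).1, h7, (h2 D h6).2⟩
  · exact hC.add_mem _ h3 _ (sum_mem' hC _ _ fun D hD => hm D (mem_filter.1 hD).1)
  · have e1 : fDeg n (∑ D ∈ T.filter (fun D => ¬ (D.1 : ℝ) ≤ B), a D • toReal D) =
        ∑ D ∈ T.filter (fun D => ¬ (D.1 : ℝ) ≤ B), a D := by
      refine Eq.trans (map_sum (fL (s := s) n) _ _) (sum_congr rfl fun D hD => ?_)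
      refine Eq.trans (fDeg_smul _ _) ?_
      rw [weyl_fDeg ⟨D, (h2 D (mem_filter.1 hD).1).1, rfl⟩, mul_one]
    have e2 : (∑ D ∈ T.filter (fun D => ¬ (D.1 : ℝ) ≤ B), a D • toReal D).1 =
        ∑ D ∈ T.filter (fun D => ¬ (D.1 : ℝ) ≤ B), a D * D.1 := by
      rw [Prod.fst_sum]
      rfl
    rw [fDeg_add, Prod.fst_add, e1, e2, mul_add, mul_sum]
    have h6 : ∑ D ∈ T.filter (fun D => ¬ (D.1 : ℝ) ≤ B), B * a D ≤
        ∑ D ∈ T.filter (fun D => ¬ (D.1 : ℝ) ≤ B), a D * D.1 := by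
      refine sum_le_sum fun D hD => ?_
      obtain ⟨h7, h8⟩ := mem_filter.1 hD
      rw [mul_comm]
      exact mul_le_mul_of_nonneg_left (not_le.1 h8).le (h2 D h7).2.le
    have h7 := hC.nonneg y h3
    have h8 : B * fDeg n y ≤ 0 := mul_nonpos_of_nonneg_of_nonpos hB h4
    linarith
  · rw [h5, add_assoc]
    congr 1
    rw [add_comm]
    exact (sum_filter_add_sum_filter_not _ _ _).symm

end good

end Pool.Agent.Y98.EC
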