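import Mathlib

/-!
# The convex hull of a compact set in a finite-dimensional space is compact
-/

set_option autoImplicit false

open Set Module

namespace Pool.Agent.Y98.EC

/-- extending a finite sum by zero -/
lemma sum_extend {ι κ M : Type*} [Fintype ι] [Fintype κ] [AddCommMonoid M] (g : ι ↪ κ)
    {f : κ → M} {h : ι → M} (h1 : ∀ i, f (g i) = h i) (h0 : ∀ j, (¬ ∃ i, g i = j) → f j = 0) :
    ∑ j, f j = ∑ i, h i := by
  classical
  have e1 : ∑ i, h i = ∑ j ∈ Finset.univ.map g, f j := by
    rw [Finset.sum_map]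
    exact Finset.sum_congr rfl fun i _ => (h1 i).symm
  rw [e1]
  symm
  refine Finset.sum_subset (Finset.subset_univ _) fun j _ hj => h0 j ?_
  rintro ⟨i, rfl⟩
  exact hj (Finset.mem_map_of_mem g (Finset.mem_univ i))

variable {V : Type} [NormedAddCommGroup V] [NormedSpace ℝ V] [FiniteDimensional ℝ V]

theorem isCompact_hull {Z : Set V} (hZ : IsCompact Z) : IsCompact (convexHull ℝ Z) := by
  classical
  rcases Z.eq_empty_or_nonempty with rfl | ⟨z0, hz0⟩
  · simp
  obtain ⟨N, hN⟩ : ∃ N, N = finrank ℝ V + 1 := ⟨_, rfl⟩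
  have h1 : IsCompact ((fun q : (Fin N → ℝ) × (Fin N → V) => ∑ i, q.1 i • q.2 i) ''
      (stdSimplex ℝ (Fin N) ×ˢ Set.pi univ fun _ => Z)) := by
    refine ((isCompact_stdSimplex ℝ (Fin N)).prod (isCompact_univ_pi fun _ => hZ)).image ?_
    fun_prop
  have h2 : convexHull ℝ Z = (fun q : (Fin N → ℝ) × (Fin N → V) => ∑ i, q.1 i • q.2 i) ''
      (stdSimplex ℝ (Fin N) ×ˢ Set.pi univ fun _ => Z) := by
    apply Subset.antisymm
    · intro x hx
      obtain ⟨ι, _, z, w, hz, hi, hw, hw1, hx⟩ := eq_pos_convex_span_of_mem_convexHull hx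
      have hcard : Fintype.card ι ≤ Fintype.card (Fin N) := by
        rw [Fintype.card_fin, hN]
        exact hi.card_le_finrank_succ.trans (by
          gcongr
          exact Submodule.finrank_le _)
      obtain ⟨g⟩ := Function.Embedding.nonempty_of_card_le hcard
      have e1 : ∀ i, Function.extend g w (fun _ => (0 : ℝ)) (g i) = w i := fun i => g.injective.extend_apply w _ i
      have e2 : ∀ j, (¬ ∃ i, g i = j) → Function.extend g w (fun _ => (0 : ℝ)) j = 0 := fun j hj =>
        Function.extend_apply' w _ j hj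
      have e3 : ∀ i, Function.extend g z (fun _ => z0) (g i) = z i := fun i =>
        g.injective.extend_apply z _ i
      refine ⟨(Function.extend g w (fun _ => (0 : ℝ)), Function.extend g z fun _ => z0), ⟨⟨?_, ?_⟩, ?_⟩, ?_⟩
      · intro j
        by_cases h : ∃ i, g i = j
        · obtain ⟨i, rfl⟩ := h
          dsimp only
          rw [e1]
          exact (hw i).le
        · dsimp only
          rw [e2 j h]
      · dsimp only
        rw [sum_extend g e1 e2, hw1]
      · intro j _
        by_cases h : ∃ i, g i = j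
        · obtain ⟨i, rfl⟩ := h
          dsimp only
          rw [e3]
          exact hz ⟨_, rfl⟩
        · dsimp only
          rw [Function.extend_apply' z _ j h]
          exact hz0
      · dsimp only
        rw [sum_extend g (h := fun i => w i • z i) (fun i => by rw [e1, e3])
          (fun j hj => by rw [e2 j hj, zero_smul]), hx]
    · rintro _ ⟨⟨w, z⟩, ⟨⟨hw, hw1⟩, hz⟩, rfl⟩
      refine (convex_convexHull ℝ Z).sum_mem (fun i _ => hw i) hw1 fun i _ => ?_
      exact subset_convexHull ℝ Z (hz i (mem_univ i))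
  rw [h2]
  exact h1

end Pool.Agent.Y98.EC
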